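import Pool.Agent.H700.VG.All

/-!
# The density polynomial Hales-Jewett conjecture relative to families of bounded VC dimension

A tuple `(α_1, ..., α_(k-1))` of subsets of `[N]^d` is a subset of the disjoint union `X_N` of `k - 1` copies of
`[N]^d`. The sections of a family `G` of subsets of `X_N` at the block `B`, the set of the points of `X_N` with all
coordinates in `I ⊆ [N]`, are the families `{x ⊆ B : x ∪ Y ∈ G}`, `Y` a set of other points. We consider the
families whose sections at many disjoint blocks have bounded VC dimension, and all Boolean combinations `F` of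
boundedly many of them. Let `τ` be a density such that for one `n` all sets of tuples over `[n]` of density more
than `τ` contain a configuration. Then a set `E ⊆ F` of tuples which contains no configuration has at most
`τ |F| + ε 2^((k-1) N^d)` elements. So Bergelson's conjecture implies its relative form in all these families, and
the relative form holds for relative densities above `1 - 1/k`. In particular all the families of the class of
positive density, and all the sets which contain almost all of such a family, contain configurations, for all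
`k` and `d`.

**Proof.** By the polynomial Hales-Jewett theorem with several parameters (`Pool.Agent.H700.VG.gmulti`, from the
library's form of the theorem of Bergelson and Leibman) and Haussler's packing theorem, each block has a copy of
the set of all tuples over `[n]` all of whose members are nearly equivalent for `F`; in each such copy `E` has
density at most `τ`.
-/

set_option autoImplicit false

namespace Pool.Agent.Results.MP_4523ee_co.RelativeToBoundedVC

open Finset Pool.Agent.H700.VB Pool.Agent.H700.VG

/-- The set `E` of `s`-tuples of subsets of `[N]^d` contains all members of a configuration: a tuple `α` whose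
entries are disjoint from `γ^d`, `γ ⊆ [N]` nonempty, and all the tuples in which one entry `α j` is replaced by
`α j ∪ γ^d`. -/
def HasConfiguration {s d N : ℕ} (E : Finset (Fin s → Finset (Fin d → Fin N))) : Prop :=
  ∃ (α : Fin s → Finset (Fin d → Fin N)) (γ : Finset (Fin N)), γ.Nonempty ∧
    (∀ i, Disjoint (α i) (Fintype.piFinset fun _ => γ)) ∧ α ∈ E ∧
    ∀ j, Function.update α j (α j ∪ Fintype.piFinset fun _ => γ) ∈ E

/-- For some `n`, every set of more than `τ 2^((k-1) n^d)` tuples over `[n]` contains a configuration. -/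
def Admissible (k d : ℕ) (τ : ℝ) : Prop :=
  0 ≤ τ ∧ ∃ n : ℕ, ∀ E : Finset (Fin (k - 1) → Finset (Fin d → Fin n)),
    τ * 2 ^ ((k - 1) * n ^ d) < #E → HasConfiguration E

/-- The tuples as subsets of the disjoint union of copies of `[N]^d`. -/
def tup (s d N : ℕ) :
    (Fin s → Finset (Fin d → Fin N)) ≃ Finset (Pt (fun _ : Fin s => d) N) where
  toFun α := univ.sigma α
  invFun A := fun r => univ.filter fun x => (⟨r, x⟩ : Pt (fun _ : Fin s => d) N) ∈ A
  left_inv α := by
    funext r
    ext x
    simp
  right_inv A := by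
    ext ⟨r, x⟩
    simp

/-- the configurations: `∅` and the sets with one element -/
def conf (s : ℕ) : Finset (Finset (Fin s)) := insert ∅ (univ.image fun r => {r})

theorem card_conf (s : ℕ) : #(conf s) = s + 1 := by
  unfold conf
  rw [card_insert_of_notMem, card_image_of_injective _ singleton_injective, card_univ,
    Fintype.card_fin]
  intro h
  obtain ⟨r, -, hr⟩ := mem_image.1 h
  exact absurd hr (singleton_ne_empty r)

theorem tup_union {s d N : ℕ} (α : Fin s → Finset (Fin d → Fin N)) (γ : Finset (Fin N))
    (j : Fin s) : tup s d N α ∪ part (fun _ => d) {j} γ =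
      tup s d N (Function.update α j (α j ∪ Fintype.piFinset fun _ => γ)) := by
  ext ⟨r, x⟩
  simp only [tup, Equiv.coe_fn_mk, mem_union, mem_sigma, mem_univ, true_and, mem_part,
    mem_singleton]
  by_cases h : r = j
  · subst h
    rw [Function.update_self, mem_union, Fintype.mem_piFinset]
    simp
  · rw [Function.update_of_ne h]
    simp [h]

theorem hasConfiguration_of_good {s d N : ℕ} (E : Finset (Fin s → Finset (Fin d → Fin N)))
    (h : Good (conf s) (E.map (tup s d N).toEmbedding)) : HasConfiguration E := by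
  obtain ⟨A, γ, hγ, hdisj, hA⟩ := h
  obtain ⟨α, rfl⟩ := (tup s d N).surjective A
  have hmem : ∀ β, tup s d N β ∈ E.map (tup s d N).toEmbedding ↔ β ∈ E := fun β => by
    rw [mem_map_equiv, Equiv.symm_apply_apply]
  refine ⟨α, γ, hγ, fun i => ?_, ?_, fun j => ?_⟩
  · rw [Finset.disjoint_left]
    intro x hx hx'
    have h3 : (⟨i, x⟩ : Pt (fun _ : Fin s => d) N) ∈ tup s d N α := by simp [tup, hx]
    have h4 : (⟨i, x⟩ : Pt (fun _ : Fin s => d) N) ∈ part (fun _ => d) univ γ := by
      rw [mem_part]
      exact ⟨mem_univ _, fun t => Fintype.mem_piFinset.1 hx' t⟩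
    exact Finset.disjoint_left.1 hdisj h3 h4
  · have h1 := hA ∅ (mem_insert_self _ _)
    have h2 : part (fun _ : Fin s => d) (∅ : Finset (Fin s)) γ = ∅ := by
      ext x
      rw [mem_part]
      simp
    rw [h2, union_empty, hmem] at h1
    exact h1
  · have h1 := hA {j} (mem_insert_of_mem (mem_image_of_mem _ (mem_univ j)))
    rw [tup_union, hmem] at h1
    exact h1

theorem good_of_hasConfiguration {s d N : ℕ} (S : Finset (Finset (Pt (fun _ : Fin s => d) N)))
    (h : HasConfiguration (S.map (tup s d N).symm.toEmbedding)) : Good (conf s) S := by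
  obtain ⟨α, γ, hγ, hdisj, hα, hα'⟩ := h
  have hmem : ∀ β, β ∈ S.map (tup s d N).symm.toEmbedding ↔ tup s d N β ∈ S := fun β => by
    rw [mem_map_equiv, Equiv.symm_symm]
  refine ⟨tup s d N α, γ, hγ, ?_, fun T hT => ?_⟩
  · rw [Finset.disjoint_left]
    rintro ⟨r, x⟩ hx hx'
    rw [mem_part] at hx'
    have h1 : x ∈ α r := by simpa [tup] using hx
    exact Finset.disjoint_left.1 (hdisj r) h1 (Fintype.mem_piFinset.2 hx'.2)
  · rcases mem_insert.1 hT with rfl | hT
    · have h2 : part (fun _ : Fin s => d) (∅ : Finset (Fin s)) γ = ∅ := by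
        ext x
        rw [mem_part]
        simp
      rw [h2, union_empty, ← hmem]
      exact hα
    · obtain ⟨j, -, rfl⟩ := mem_image.1 hT
      rw [tup_union, ← hmem]
      exact hα' j

theorem card_pt (s d N : ℕ) : Fintype.card (Pt (fun _ : Fin s => d) N) = s * N ^ d := by
  rw [Fintype.card_sigma]
  simp

/-- **The relative form of the density polynomial Hales-Jewett conjecture for Boolean combinations of families
of bounded VC dimension.** -/
theorem result (k d : ℕ) (hk : 2 ≤ k) (hd : 1 ≤ d) :
    -- (0) the elementary admissible densities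
    (∀ τ : ℝ, 1 - 1 / k < τ → Admissible k d τ) ∧
    ∀ τ : ℝ, Admissible k d τ →
    -- (1) families whose sections at the blocks have bounded VC dimension
    (∀ (D r : ℕ) (ε : ℝ), 0 < ε → ∃ l M : ℕ, ∀ (N : ℕ) (I : Fin M → Finset (Fin N)),
      (∀ i, #(I i) = l) → (∀ i j, i ≠ j → Disjoint (I i) (I j)) →
      ∀ (G : Fin r → Finset (Finset (Pt (fun _ : Fin (k - 1) => d) N)))
        (F : Finset (Finset (Pt (fun _ : Fin (k - 1) => d) N)))
        (E : Finset (Fin (k - 1) → Finset (Fin d → Fin N))),
        (∀ i j, SectionsVC D (part (fun _ => d) univ (I j))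
          (univ.biUnion fun j => part (fun _ => d) univ (I j)) (G i)) →
        Combination G F → (∀ α ∈ E, tup (k - 1) d N α ∈ F) → ¬ HasConfiguration E →
          (#E : ℝ) ≤ τ * #F + ε * 2 ^ ((k - 1) * N ^ d)) ∧
    -- (2) functions of bounded rank
    (∀ (w r : ℕ) (ε : ℝ), 0 < ε → ∃ l M : ℕ, ∀ (N : ℕ) (I : Fin M → Finset (Fin N)),
      (∀ i, #(I i) = l) → (∀ i j, i ≠ j → Disjoint (I i) (I j)) →
      ∀ (G : Fin r → Finset (Finset (Pt (fun _ : Fin (k - 1) => d) N)))
        (F : Finset (Finset (Pt (fun _ : Fin (k - 1) => d) N)))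
        (E : Finset (Fin (k - 1) → Finset (Fin d → Fin N))),
        (∀ i, RankDecided w (fun j => part (fun _ => d) univ (I j)) (G i)) →
        Combination G F → (∀ α ∈ E, tup (k - 1) d N α ∈ F) → ¬ HasConfiguration E →
          (#E : ℝ) ≤ τ * #F + ε * 2 ^ ((k - 1) * N ^ d)) ∧
    -- (3) trigonometric polynomials
    (∀ (t r : ℕ) (ε : ℝ), 0 < ε → ∃ N₀ : ℕ, ∀ N : ℕ, N₀ ≤ N →
      ∀ (G : Fin r → Finset (Finset (Pt (fun _ : Fin (k - 1) => d) N)))
        (F : Finset (Finset (Pt (fun _ : Fin (k - 1) => d) N)))
        (E : Finset (Fin (k - 1) → Finset (Fin d → Fin N))),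
        (∀ i, TrigDecided t (G i)) →
        Combination G F → (∀ α ∈ E, tup (k - 1) d N α ∈ F) → ¬ HasConfiguration E →
          (#E : ℝ) ≤ τ * #F + ε * 2 ^ ((k - 1) * N ^ d)) := by
  have hdd : ∀ r : Fin (k - 1), 1 ≤ (fun _ : Fin (k - 1) => d) r := fun _ => hd
  refine ⟨fun τ hτ => ?_, ?_⟩
  · have hk0 : (0 : ℝ) < k := by
      have : 0 < k := by omega
      exact_mod_cast this
    have hcard : (#(conf (k - 1)) : ℝ) = k := by
      rw [card_conf, Nat.sub_add_cancel (by omega)]
    have h0 : (0 : ℝ) ≤ 1 - 1 / k := by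
      have : (1 : ℝ) / k ≤ 1 := by
        rw [div_le_one hk0]
        exact_mod_cast (by omega : 1 ≤ k)
      linarith
    obtain ⟨n, hn⟩ := triv (fun _ : Fin (k - 1) => d) hdd (conf (k - 1))
      ⟨∅, mem_insert_self _ _⟩ τ (by rw [hcard]; exact hτ)
    refine ⟨h0.trans hτ.le, n, fun E hE => hasConfiguration_of_good E (hn _ ?_)⟩
    rw [card_map, card_pt]
    exact hE
  · rintro τ ⟨hτ0, n, hτ⟩
    have hτ' : ∀ T : Finset (Finset (Pt (fun _ : Fin (k - 1) => d) n)),
        τ * 2 ^ Fintype.card (Pt (fun _ : Fin (k - 1) => d) n) < #T → Good (conf (k - 1)) T := by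
      intro T hT
      refine good_of_hasConfiguration T (hτ _ ?_)
      rw [card_map, ← card_pt]
      exact hT
    have hmap : ∀ {N : ℕ} (F : Finset (Finset (Pt (fun _ : Fin (k - 1) => d) N)))
        (E : Finset (Fin (k - 1) → Finset (Fin d → Fin N))),
        (∀ α ∈ E, tup (k - 1) d N α ∈ F) → E.map (tup (k - 1) d N).toEmbedding ⊆ F := by
      intro N F E h A hA
      obtain ⟨α, hα, rfl⟩ := mem_map.1 hA
      exact h α hα
    refine ⟨fun D r ε hε => ?_, fun w r ε hε => ?_, fun t r ε hε => ?_⟩
    · obtain ⟨l, M, h⟩ := main (fun _ : Fin (k - 1) => d) hdd (conf (k - 1)) n τ hτ0 hτ' D r ε hε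
      refine ⟨l, M, fun N I hI hdis G F E hG ⟨g, hg⟩ hEF hE => ?_⟩
      have := h N I hI hdis G g F (E.map (tup (k - 1) d N).toEmbedding) hG hg (hmap F E hEF)
        (fun hgood => hE (hasConfiguration_of_good E hgood))
      rwa [card_map, card_pt] at this
    · obtain ⟨l, M, h⟩ := rank_main (fun _ : Fin (k - 1) => d) hdd (conf (k - 1)) n τ hτ0 hτ' w r ε hε
      refine ⟨l, M, fun N I hI hdis G F E hG hF hEF hE => ?_⟩
      have := h N I hI hdis G F (E.map (tup (k - 1) d N).toEmbedding) hG hF (hmap F E hEF)
        (fun hgood => hE (hasConfiguration_of_good E hgood))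
      rwa [card_map, card_pt] at this
    · obtain ⟨N₀, h⟩ := trig_main (fun _ : Fin (k - 1) => d) hdd (conf (k - 1)) n τ hτ0 hτ' t r ε hε
      refine ⟨N₀, fun N hN G F E hG hF hEF hE => ?_⟩
      have := h N hN G F (E.map (tup (k - 1) d N).toEmbedding) hG hF (hmap F E hEF)
        (fun hgood => hE (hasConfiguration_of_good E hgood))
      rwa [card_map, card_pt] at this

end Pool.Agent.Results.MP_4523ee_co.RelativeToBoundedVC
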